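import Pool.Agent.H14R3.Aug.Stmts

set_option autoImplicit false

/-! Project AUG, TaskRestr: the restriction of a minimal solution to a cone is minimal. -/

open scoped ENNReal InnerProductSpace

namespace Pool.Agent.H360R3.Aug

open Pool.Agent.H14R3.Aug

/-- Composition with a permutation. -/
noncomputable def trP {ι : Type} (σ : Equiv.Perm ι) (f : H ι) : H ι :=
  ⟨fun x => f (σ x), by
    have h2 : 0 < (2 : ℝ≥0∞).toReal := by norm_num
    have h := (memℓp_gen_iff h2).1 (lp.memℓp f)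
    exact (memℓp_gen_iff h2).2
      ((σ.summable_iff (f := fun x => ‖f x‖ ^ (2 : ℝ≥0∞).toReal)).2 h)⟩

theorem trP_apply {ι : Type} (σ : Equiv.Perm ι) (f : H ι) (x : ι) : trP σ f x = f (σ x) := rfl

theorem TaskRestr_proof : TaskRestr := by
  intro hR hE n k x S R N hx hS d hd hdo t v hv hN e he1 he2
  refine Submodule.mem_inf.2 ⟨hR n k x S R hx hS d hd t v hv e he1 he2, ?_⟩
  rw [Submodule.mem_orthogonal]
  intro q hq
  have hq0 : ∀ g, ¬ (Ends t g ∧ 2 ≤ len g) → q g = 0 := hq.1.1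
  set f : H (G n) := trP (Equiv.mulRight v⁻¹) q with hf
  have hfa : ∀ g, f g = q (g * v⁻¹) := fun g => rfl
  have hfK : f ∈ Kglob x S N := by
    refine hE n k x S R N hS t v hv hN q hq f ?_ ?_
    · intro g _
      rw [hfa, mul_inv_cancel_right]
    · intro g hg
      rw [hfa]
      exact hq0 _ (fun h => hg h.1)
  have h0 : ⟪f, d⟫_ℂ = 0 := (Submodule.mem_orthogonal _ _).1 hdo f hfK
  rw [lp.inner_eq_tsum] at h0
  rw [lp.inner_eq_tsum]
  rw [← h0, ← (Equiv.mulRight v).tsum_eq (fun g => ⟪f g, d g⟫_ℂ)]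
  refine tsum_congr (fun g => ?_)
  have h1 : f (Equiv.mulRight v g) = q g := by
    rw [hfa]
    simp
  rw [h1]
  by_cases hg : Ends t g ∧ 2 ≤ len g
  · rw [he1 g hg.1 hg.2]
    rfl
  · rw [hq0 g hg, inner_zero_left, inner_zero_left]

end Pool.Agent.H360R3.Aug
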